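import Pool.Agent.Helper53.CTG.Goals

/-!
# PROJECT CTG (MP_8b4d68_lc), packet FUN: unambiguity
-/

set_option autoImplicit false

namespace Pool.Agent.Helper22.CTG

open Pool.Agent.Helper53.CTG
open Pool.Agent.Helper1.TE (Gad app cif ctab bitc seed wN vN addm NumMach codeB word CodeOK
  sym NUnamb USPACE)
open Pool.Agent.Helper65.LinSpace (dig tab nrec ifz eq01 le01 lt01 capPow Ctx LS)
open Finset

theorem inv_of_reach (hStep : InvStep) (ok : ℕ → ℕ → ℕ → ℕ → ℕ) (tst : ℕ → ℕ) (mal : ℕ)
    (w : List Bool) (x y : Sta) (hx : Inv ok tst mal w x)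
    (h : Relation.ReflTransGen (fun x x' => ∃ γ < 2, x' = (machM ok tst mal).nx w x γ) x y) :
    Inv ok tst mal w y := by
  induction h with
  | refl => exact hx
  | tail _ h2 ih =>
    obtain ⟨γ, hγ, rfl⟩ := h2
    exact hStep ok tst mal w _ γ hγ ih

theorem inv_start (ok : ℕ → ℕ → ℕ → ℕ → ℕ) (tst : ℕ → ℕ) (mal : ℕ) (w : List Bool) :
    Inv ok tst mal w (machM ok tst mal).start :=
  Inv.m0 0 (fun i hi => absurd hi (Nat.not_lt_zero i))

theorem eq_accS (ok : ℕ → ℕ → ℕ → ℕ → ℕ) (tst : ℕ → ℕ) (mal : ℕ) (w : List Bool) (x : Sta)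
    (hx : Inv ok tst mal w x) (hacc : (machM ok tst mal).acc x ≠ 0) : x = accS := by
  have h7 : x.mo = 7 := by
    by_contra hne
    apply hacc
    change eq01 x.mo 7 = 0
    unfold eq01
    rw [if_neg hne]
  cases hx with
  | m7 _ => rfl
  | _ => exact absurd h7 (by simp [Sta.mo, hdr, rejS, mainS])

theorem rej_nx (ok : ℕ → ℕ → ℕ → ℕ → ℕ) (tst : ℕ → ℕ) (mal : ℕ) (w : List Bool) (γ : ℕ) :
    (machM ok tst mal).nx w rejS γ = rejS := by
  change nextM ok tst mal rejS (codeB w[(machM ok tst mal).addr rejS]?) γ = rejS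
  have h1 : nextN ok tst mal rejS (codeB w[(machM ok tst mal).addr rejS]?) γ = rejS := by
    unfold nextN
    simp [cif, Sta.mo, rejS, hdr]
  unfold nextM
  rw [h1]
  unfold cif
  split_ifs <;> rfl

theorem rej_reach (ok : ℕ → ℕ → ℕ → ℕ → ℕ) (tst : ℕ → ℕ) (mal : ℕ) (w : List Bool) (y : Sta)
    (h : Relation.ReflTransGen (fun x x' => ∃ γ < 2, x' = (machM ok tst mal).nx w x γ) rejS y) :
    y = rejS := by
  induction h with
  | refl => rfl
  | tail _ h2 ih =>
    obtain ⟨γ, _, rfl⟩ := h2
    rw [ih]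
    exact rej_nx ok tst mal w γ

/-- A complete run from three parts. -/
theorem full_run {S : Type} (step : ℕ → ℕ → S → Option S) (B M τ g' : ℕ) (s0 s E : S)
    (γ0 γt : ℕ → ℕ) (hM : τ < M) (h0 : ∀ t, γ0 t < B) (ht : ∀ t, γt t < B) (hg : g' < B)
    (r0 : runs step γ0 τ s0 = some s) (r1 : step τ g' s = some E)
    (r2 : (runs (fun τ' => step (τ + 1 + τ')) γt (M - (τ + 1)) E).isSome) :
    ∃ γ : ℕ → ℕ, (∀ t, γ t < B) ∧ (runs step γ M s0).isSome ∧ γ τ = g' := by
  refine ⟨fun t => if t < τ then γ0 t else if t = τ then g' else γt (t - (τ + 1)),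
    fun t => ?_, ?_, ?_⟩
  · dsimp only
    split_ifs
    · exact h0 t
    · exact hg
    · exact ht _
  · have e : M = (τ + 1) + (M - (τ + 1)) := by omega
    rw [e, runs_add]
    have a1 : runs step (fun t => if t < τ then γ0 t else if t = τ then g' else γt (t - (τ + 1)))
        (τ + 1) s0 = some E := by
      rw [runs_succ_eq_some]
      refine ⟨s, ?_, ?_⟩
      · rw [← r0]
        apply runs_congr
        intro t ht'
        rw [if_pos ht']
      · rw [if_neg (lt_irrefl τ), if_pos rfl]
        exact r1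
    rw [a1]
    change (runs _ _ (M - (τ + 1)) E).isSome
    rw [runs_congr (γ' := γt) (step' := fun τ' => step (τ + 1 + τ'))]
    · exact r2
    · intro t _
      rw [if_neg (by omega), if_neg (by omega), Nat.add_sub_cancel_left]
  · dsimp only
    rw [if_neg (lt_irrefl τ), if_pos rfl]

theorem gFUN : GoalFUN := by
  intro hPB hACC hFX hStep hMach ok tst mal w x y y' hR hacc R0 a0 R1 a1
  have hxI : Inv ok tst mal w x :=
    inv_of_reach hStep ok tst mal w _ x (inv_start ok tst mal w) hR
  have hmo7 : x.mo ≠ 7 := by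
    intro h7
    apply absurd hacc
    change eq01 x.mo 7 ≠ 0
    rw [h7]
    decide
  have I0 := hStep ok tst mal w x 0 (by norm_num) hxI
  have I1 := hStep ok tst mal w x 1 (by norm_num) hxI
  have y0 : y = accS := eq_accS ok tst mal w y (inv_of_reach hStep ok tst mal w _ y I0 R0) a0
  have y1 : y' = accS := eq_accS ok tst mal w y' (inv_of_reach hStep ok tst mal w _ y' I1 R1) a1
  subst y0
  subst y1
  by_cases hq : gqM x = 0
  · -- the successor for `1` is rejecting
    have h1 : (machM ok tst mal).nx w x 1 = rejS := by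
      change nextM ok tst mal x (codeB w[(machM ok tst mal).addr x]?) 1 = rejS
      unfold nextM
      rw [hq]
      have : eq01 x.mo 7 = 0 := by
        unfold eq01
        rw [if_neg hmo7]
      rw [this]
      rfl
    rw [h1] at R1
    have h2 := rej_reach ok tst mal w _ R1
    have h3 := congrArg Sta.mo h2
    simp [accS, rejS, hdr, Sta.mo] at h3
  · -- a guess
    have hgq : gqM x = eq01 x.mo 6 * le01 (Nt x.N x.q) x.u *
      lt01 x.u (Nt x.N x.q + 3 * x.b) := rfl
    have hmo : x.mo = 6 := by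
      by_contra hne
      apply hq
      rw [hgq]
      unfold eq01
      rw [if_neg hne]
      simp
    have hu1 : Nt x.N x.q ≤ x.u := by
      by_contra hne
      apply hq
      rw [hgq]
      unfold le01
      rw [if_neg hne]
      simp
    have hu2 : x.u < Nt x.N x.q + 3 * x.b := by
      by_contra hne
      apply hq
      rw [hgq]
      unfold lt01
      rw [if_neg hne]
      simp
    cases hxI with
    | m6 N q b c u τ g t D X S A h1 hτ hu hg hD ht hX hS hC =>
      have hu1' : Nt N q ≤ u := hu1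
      have hu2' : u < Nt N q + 3 * b := hu2
      set W := 2 ^ Et N q b c with hW
      have hgq1 : gqM (mainS N q b c u W τ g t D X S A) = 1 := by
        change eq01 6 6 * le01 (Nt N q) u * lt01 u (Nt N q + 3 * b) = 1
        unfold lt01 eq01 le01
        rw [if_pos hu1', if_pos hu2', if_pos rfl]
      have hN : ∀ yy γ, nextN ok tst mal (mainS N q b c u W τ g t D X S A) yy γ =
          mainS N q b c (u + 1) W τ (2 * g + γ) t D X S A := by
        intro yy γ
        have hne1 : Nt N q - u = 0 := by omega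
        have hne2 : Nt N q + 3 * b - u ≠ 0 := by omega
        unfold nextN
        simp [cif, Sta.mo, Sta.N, Sta.q, Sta.b, Sta.c, Sta.u, Sta.W, Sta.τ, Sta.g, Sta.t,
          Sta.D, Sta.X, Sta.S, Sta.A, mainS, hne1, hne2]
      have n0 : (machM ok tst mal).nx w (mainS N q b c u W τ g t D X S A) 0 =
          mainS N q b c (u + 1) W τ (2 * g + 0) t D X S A := by
        change nextM ok tst mal (mainS N q b c u W τ g t D X S A) (codeB
          w[(machM ok tst mal).addr (mainS N q b c u W τ g t D X S A)]?) 0 = _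
        unfold nextM
        rw [hgq1, hN]
        rfl
      have n1 : (machM ok tst mal).nx w (mainS N q b c u W τ g t D X S A) 1 =
          mainS N q b c (u + 1) W τ (2 * g + 1) t D X S A := by
        change nextM ok tst mal (mainS N q b c u W τ g t D X S A) (codeB
          w[(machM ok tst mal).addr (mainS N q b c u W τ g t D X S A)]?) 1 = _
        unfold nextM
        rw [hgq1, hN]
        rfl
      rw [n0] at R0 I0
      rw [n1] at R1 I1
      obtain ⟨g0, hg0, e0, E0, s0, γ0, b0, r0⟩ := hFX ok tst mal w N q b c (u + 1) τ (2 * g + 0)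
        t D X S A (by omega) (by omega) I0 R0
      obtain ⟨g1, hg1, e1, E1, s1, γ1, b1, r1⟩ := hFX ok tst mal w N q b c (u + 1) τ (2 * g + 1)
        t D X S A (by omega) (by omega) I1 R1
      obtain ⟨γi, bi, ri⟩ := hC
      obtain ⟨Γ0, B0, F0, G0⟩ := full_run (opM tst w N q b c) (8 ^ b) (13 ^ Nt N q) τ g0 _ _ E0
        γi γ0 hτ bi b0 hg0 ri s0 r0
      obtain ⟨Γ1, B1, F1, G1⟩ := full_run (opM tst w N q b c) (8 ^ b) (13 ^ Nt N q) τ g1 _ _ E1
        γi γ1 hτ bi b1 hg1 ri s1 r1
      obtain ⟨-, -, k1, k2, k3, k4, -⟩ := h1.1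
      have hgg := (hACC tst w N q b c k1 k2 k3 k4).2 Γ0 Γ1 B0 B1 F0 F1 τ hτ
      rw [G0, G1] at hgg
      rw [hgg, e1] at e0
      omega
    | _ => exact absurd hmo (by simp [Sta.mo, hdr, rejS, accS])

end Pool.Agent.Helper22.CTG
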